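import Mathlib

open Equiv

namespace Pool.Agent.Results.MP_acd7ab_co.SizeFails

/-- `τ` has at least one cycle of even length in its disjoint cycle decomposition. -/
def HasEvenCycle {n : ℕ} (τ : Perm (Fin n)) : Prop := ∃ c ∈ τ.cycleType, Even c

/-- For all distinct `σ, π` in `F`, the permutation `σ π⁻¹` has a cycle of even length. -/
def EvenCycleIntersecting {n : ℕ} (F : Finset (Perm (Fin n))) : Prop :=
  ∀ σ ∈ F, ∀ π ∈ F, σ ≠ π → HasEvenCycle (σ * π⁻¹)

/-- `F` is even-cycle-intersecting and no even-cycle-intersecting family has more elements. -/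
def Extremal {n : ℕ} (F : Finset (Perm (Fin n))) : Prop :=
  EvenCycleIntersecting F ∧
    ∀ F' : Finset (Perm (Fin n)), EvenCycleIntersecting F' → F'.card ≤ F.card

/-- `F = σ P π` for a Sylow 2-subgroup `P` of the symmetric group and `σ, π` in it. -/
def IsDoubleTranslate {n : ℕ} (F : Finset (Perm (Fin n))) : Prop :=
  ∃ (P : Sylow 2 (Perm (Fin n))) (σ π : Perm (Fin n)),
    (F : Set (Perm (Fin n))) = {x | ∃ g ∈ P, x = σ * g * π}

lemma two_dvd_lcm (s : Multiset ℕ) : 2 ∣ s.lcm ↔ ∃ c ∈ s, 2 ∣ c := by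
  induction s using Multiset.induction with
  | empty => simp
  | cons a s ih =>
    rw [Multiset.lcm_cons]
    constructor
    · intro h
      have h2 : 2 ∣ a * s.lcm := h.trans (Nat.lcm_dvd_mul a s.lcm)
      rcases (Nat.prime_two.dvd_mul).mp h2 with h3 | h3
      · exact ⟨a, Multiset.mem_cons_self a s, h3⟩
      · obtain ⟨c, hc, hc2⟩ := ih.mp h3
        exact ⟨c, Multiset.mem_cons_of_mem hc, hc2⟩
    · rintro ⟨c, hc, hc2⟩
      rcases Multiset.mem_cons.mp hc with rfl | h3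
      · exact hc2.trans (dvd_lcm_left _ _)
      · exact (ih.mpr ⟨c, h3, hc2⟩).trans (dvd_lcm_right _ _)

lemma hasEvenCycle_iff {n : ℕ} (τ : Perm (Fin n)) : HasEvenCycle τ ↔ Even (orderOf τ) := by
  rw [← Perm.lcm_cycleType, even_iff_two_dvd, two_dvd_lcm]
  simp only [HasEvenCycle, even_iff_two_dvd]

/-- Values of sixteen even permutations. -/
def tab : Fin 16 → Fin 7 → Fin 7 := ![
  ![0, 1, 2, 3, 4, 5, 6],
  ![2, 6, 0, 3, 5, 1, 4],
  ![3, 4, 5, 1, 0, 2, 6],
  ![2, 4, 0, 1, 5, 3, 6],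
  ![1, 6, 5, 3, 0, 2, 4],
  ![6, 1, 5, 4, 0, 2, 3],
  ![0, 3, 2, 1, 6, 5, 4],
  ![0, 6, 2, 4, 3, 5, 1],
  ![4, 3, 5, 6, 0, 2, 1],
  ![2, 3, 0, 6, 5, 4, 1],
  ![5, 1, 3, 6, 2, 0, 4],
  ![5, 3, 1, 4, 2, 0, 6],
  ![0, 4, 2, 6, 1, 5, 3],
  ![2, 1, 0, 4, 5, 6, 3],
  ![5, 4, 6, 3, 2, 0, 1],
  ![5, 6, 4, 1, 2, 0, 3]]

/-- Values of their inverses. -/
def itab : Fin 16 → Fin 7 → Fin 7 := ![
  ![0, 1, 2, 3, 4, 5, 6],
  ![2, 5, 0, 3, 6, 4, 1],
  ![4, 3, 5, 0, 1, 2, 6],
  ![2, 3, 0, 5, 1, 4, 6],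
  ![4, 0, 5, 3, 6, 2, 1],
  ![4, 1, 5, 6, 3, 2, 0],
  ![0, 3, 2, 1, 6, 5, 4],
  ![0, 6, 2, 4, 3, 5, 1],
  ![4, 6, 5, 1, 0, 2, 3],
  ![2, 6, 0, 1, 5, 4, 3],
  ![5, 1, 4, 2, 6, 0, 3],
  ![5, 2, 4, 1, 3, 0, 6],
  ![0, 4, 2, 6, 1, 5, 3],
  ![2, 1, 0, 6, 3, 4, 5],
  ![5, 6, 4, 3, 1, 0, 2],
  ![5, 3, 4, 6, 2, 0, 1]]

/-- Sixteen even permutations of `Fin 7`. -/
def A (i : Fin 16) : Perm (Fin 7) where
  toFun := tab i
  invFun := itab i
  left_inv := by revert i; decide +kernel
  right_inv := by revert i; decide +kernel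

lemma sign_A : ∀ i, Perm.sign (A i) = 1 := by decide +kernel

lemma crit : ∀ i j : Fin 16, i ≠ j → ∃ u v : Fin 7, u ≠ v ∧ A i u = A j v ∧ A i v = A j u := by
  decide +kernel

/-- If `σ u = π v` and `σ v = π u` with `u ≠ v` then `σ π⁻¹` has a 2-cycle, so even order. -/
lemma even_of_pair {α : Type*} [Fintype α] [DecidableEq α] {σ π : Perm α} {u v : α} (huv : u ≠ v)
    (h1 : σ u = π v) (h2 : σ v = π u) : Even (orderOf (σ * π⁻¹)) := by
  by_contra hodd
  rw [Nat.not_even_iff_odd] at hodd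
  obtain ⟨k, hk⟩ := hodd
  have e1 : (σ * π⁻¹) (π v) = π u := by simp [h2]
  have e2 : (σ * π⁻¹) (π u) = π v := by simp [h1]
  have e3 : ((σ * π⁻¹) ^ 2) (π v) = π v := by
    rw [pow_two, Perm.mul_apply, e1, e2]
  have e4 : ∀ k : ℕ, (((σ * π⁻¹) ^ 2) ^ k) (π v) = π v := by
    intro k
    induction k with
    | zero => simp
    | succ k ih => rw [pow_succ, Perm.mul_apply, e3, ih]
  have e5 : ((σ * π⁻¹) ^ (2 * k + 1)) (π v) = π u := by
    rw [pow_succ', pow_mul, Perm.mul_apply, e4, e1]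
  rw [← hk, pow_orderOf_eq_one] at e5
  exact huv (π.injective e5.symm)

lemma even_of_sign {α : Type*} [Fintype α] [DecidableEq α] {τ : Perm α} (h : Perm.sign τ = -1) :
    Even (orderOf τ) := by
  by_contra hodd
  rw [Nat.not_even_iff_odd] at hodd
  have h1 : Perm.sign τ ^ orderOf τ = 1 := by
    rw [← map_pow, pow_orderOf_eq_one, map_one]
  rw [h, hodd.neg_one_pow] at h1
  exact absurd h1 (by decide)

/-- The 32 permutations. -/
def B (x : Fin 16 × Bool) : Perm (Fin 7) := if x.2 then A x.1 * swap 0 1 else A x.1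

lemma sign_B (x : Fin 16 × Bool) : Perm.sign (B x) = if x.2 then -1 else 1 := by
  unfold B
  split_ifs
  · rw [Perm.sign_mul, sign_A, Perm.sign_swap (by decide), one_mul]
  · exact sign_A _

lemma even_B (x y : Fin 16 × Bool) (h : x ≠ y) : Even (orderOf (B x * (B y)⁻¹)) := by
  obtain ⟨i, a⟩ := x
  obtain ⟨j, b⟩ := y
  by_cases hab : a = b
  · subst hab
    have hij : i ≠ j := fun e => h (by rw [e])
    obtain ⟨u, v, huv, h1, h2⟩ := crit i j hij
    cases a
    · simp only [B, Bool.false_eq_true, if_false]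
      exact even_of_pair huv h1 h2
    · simp only [B, if_true]
      rw [mul_inv_rev, mul_assoc, mul_inv_cancel_left]
      exact even_of_pair huv h1 h2
  · apply even_of_sign
    rw [Perm.sign_mul, Perm.sign_inv, sign_B, sign_B]
    cases a <;> cases b <;> simp_all

/-- Sylow 2-subgroup orders. -/
lemma card_sylow {n : ℕ} (P : Sylow 2 (Perm (Fin n))) : Nat.card P = 2 ^ (n.factorial).factorization 2 := by
  rw [P.card_eq_multiplicity, Nat.card_eq_fintype_card, Fintype.card_perm, Fintype.card_fin]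

lemma factorization_step (q : ℕ) :
    ((8 * q + 7).factorial).factorization 2 = ((8 * q).factorial).factorization 2 + 4 := by
  have h1 : (8 * q + 7).factorial = (8 * q).factorial *
      ((2 ^ 4) * ((8 * q + 1) * (4 * q + 1) * (8 * q + 3) * (2 * q + 1) * (8 * q + 5) *
        (4 * q + 3) * (8 * q + 7))) := by
    simp only [Nat.factorial_succ]
    ring
  have h2 : ¬ 2 ∣ ((8 * q + 1) * (4 * q + 1) * (8 * q + 3) * (2 * q + 1) * (8 * q + 5) *
        (4 * q + 3) * (8 * q + 7)) := by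
    simp only [Nat.prime_two.dvd_mul]
    omega
  have h3 : (8 * q).factorial ≠ 0 := Nat.factorial_ne_zero _
  have h4 : ((8 * q + 1) * (4 * q + 1) * (8 * q + 3) * (2 * q + 1) * (8 * q + 5) *
        (4 * q + 3) * (8 * q + 7)) ≠ 0 := by positivity
  rw [h1, Nat.factorization_mul h3 (by positivity), Nat.factorization_mul (by norm_num) h4,
    Nat.prime_two.factorization_pow, Finsupp.add_apply, Finsupp.add_apply,
    Nat.factorization_eq_zero_of_not_dvd h2, Finsupp.single_eq_same]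

/-- Existence of a family of size `2 |P|` when `n ≡ 7 (mod 8)`. -/
lemma exists_large (q : ℕ) : ∃ F : Finset (Perm (Fin (8 * q + 7))),
    EvenCycleIntersecting F ∧ F.card = 2 * 2 ^ ((8 * q + 7).factorial).factorization 2 := by
  classical
  obtain ⟨P⟩ : Nonempty (Sylow 2 (Perm (Fin (8 * q)))) := inferInstance
  let ι : Perm (Fin (8 * q)) × Perm (Fin 7) →* Perm (Fin (8 * q + 7)) :=
    (finSumFinEquiv.permCongrHom.toMonoidHom).comp (Perm.sumCongrHom _ _)
  have hι : Function.Injective ι :=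
    (finSumFinEquiv.permCongrHom.injective).comp Perm.sumCongrHom_injective
  let g : P × (Fin 16 × Bool) → Perm (Fin (8 * q + 7)) := fun x => ι (x.1, B x.2)
  have hev : ∀ x y : P × (Fin 16 × Bool), x ≠ y → Even (orderOf (g x * (g y)⁻¹)) := by
    rintro ⟨p, x⟩ ⟨p', y⟩ hxy
    have h1 : g (p, x) * (g (p', y))⁻¹ = ι ((p : Perm _) * (p' : Perm _)⁻¹, B x * (B y)⁻¹) := by
      simp only [g]
      rw [← map_inv, ← map_mul]
      rfl
    rw [h1, orderOf_injective ι hι, Prod.orderOf_mk]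
    by_cases hx : x = y
    · have hp : p ≠ p' := fun e => hxy (by rw [e, hx])
      have h2 : Even (orderOf ((p : Perm (Fin (8 * q))) * (p' : Perm (Fin (8 * q)))⁻¹)) := by
        have h3 : ((p : Perm (Fin (8 * q))) * (p' : Perm (Fin (8 * q)))⁻¹) =
          ((p * p'⁻¹ : P) : Perm (Fin (8 * q))) := by simp
        rw [h3]
        obtain ⟨k, hk⟩ := (IsPGroup.iff_orderOf.mp P.isPGroup') (p * p'⁻¹)
        rw [Subgroup.orderOf_coe, hk]
        rcases k with _ | k
        · exfalso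
          rw [pow_zero, orderOf_eq_one_iff] at hk
          exact hp (mul_inv_eq_one.mp hk)
        · exact ⟨2 ^ k, by ring⟩
      rw [even_iff_two_dvd] at h2 ⊢
      exact h2.trans (Nat.dvd_lcm_left _ _)
    · have h2 := even_B x y hx
      rw [even_iff_two_dvd] at h2 ⊢
      exact h2.trans (Nat.dvd_lcm_right _ _)
  have hinj : Function.Injective g := by
    intro x y hxy
    by_contra hne
    have := hev x y hne
    rw [hxy, mul_inv_cancel, orderOf_one] at this
    exact absurd this (by decide)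
  have : Fintype P := Fintype.ofFinite _
  refine ⟨Finset.univ.image g, ?_, ?_⟩
  · intro σ hσ π hπ hne
    obtain ⟨x, _, rfl⟩ := Finset.mem_image.mp hσ
    obtain ⟨y, _, rfl⟩ := Finset.mem_image.mp hπ
    rw [hasEvenCycle_iff]
    exact hev x y (fun e => hne (by rw [e]))
  · rw [Finset.card_image_of_injective _ hinj, Finset.card_univ, Fintype.card_prod,
      ← Nat.card_eq_fintype_card, card_sylow P, factorization_step]
    simp
    ring

lemma card_translate {n : ℕ} {F : Finset (Perm (Fin n))} (h : IsDoubleTranslate F) :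
    F.card = 2 ^ (n.factorial).factorization 2 := by
  obtain ⟨P, σ, π, hF⟩ := h
  rw [← card_sylow P, ← Nat.card_eq_finsetCard]
  have h1 : {x | ∃ g ∈ P, x = σ * g * π} = Set.range (fun g : P => σ * (g : Perm (Fin n)) * π) := by
    ext x
    constructor
    · rintro ⟨g, hg, rfl⟩
      exact ⟨⟨g, hg⟩, rfl⟩
    · rintro ⟨g, rfl⟩
      exact ⟨g, g.2, rfl⟩
  have h2 : Nat.card F = Nat.card (F : Set (Perm (Fin n))) := rfl
  rw [h2, hF, h1]
  apply Nat.card_range_of_injective
  intro a b hab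
  have := mul_right_cancel hab
  exact Subtype.ext (mul_left_cancel this)

/-- For every `n ≡ 7 (mod 8)` there is an even-cycle-intersecting family in `S_n` of twice the
order of a Sylow 2-subgroup; extremal families exist, and none of them is a double-translate of a
Sylow 2-subgroup. -/
theorem result : ∀ n : ℕ, n % 8 = 7 →
    (∃ F : Finset (Perm (Fin n)), EvenCycleIntersecting F ∧
      ∀ P : Sylow 2 (Perm (Fin n)), F.card = 2 * Nat.card P) ∧
    (∃ F : Finset (Perm (Fin n)), Extremal F) ∧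
    ∀ F : Finset (Perm (Fin n)), Extremal F → ¬ IsDoubleTranslate F := by
  classical
  intro n hn
  obtain ⟨q, rfl⟩ : ∃ q, n = 8 * q + 7 := ⟨n / 8, by omega⟩
  obtain ⟨F, hF, hc⟩ := exists_large q
  refine ⟨⟨F, hF, fun P => by rw [hc, card_sylow P]⟩, ?_, ?_⟩
  · obtain ⟨M, hM, hmax⟩ := Finset.exists_max_image
      (Finset.univ.filter (fun F : Finset (Perm (Fin (8 * q + 7))) => EvenCycleIntersecting F))
      Finset.card ⟨F, by simpa using hF⟩
    simp only [Finset.mem_filter, Finset.mem_univ, true_and] at hM hmax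
    exact ⟨M, hM, fun F' hF' => hmax F' hF'⟩
  intro F' hF' hdt
  have h1 := hF'.2 F hF
  rw [hc, card_translate hdt] at h1
  have : 0 < 2 ^ ((8 * q + 7).factorial).factorization 2 := by positivity
  omega

end Pool.Agent.Results.MP_acd7ab_co.SizeFails
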