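import Mathlib

open Equiv

namespace Pool.Agent.Results.MP_acd7ab_co.UniquenessFails

/-- `τ` has at least one cycle of even length in its disjoint cycle decomposition. -/
def HasEvenCycle {n : ℕ} (τ : Perm (Fin n)) : Prop := ∃ c ∈ τ.cycleType, Even c

/-- For all distinct `σ, π` in `F`, the permutation `σ π⁻¹` has a cycle of even length. -/
def EvenCycleIntersecting {n : ℕ} (F : Finset (Perm (Fin n))) : Prop :=
  ∀ σ ∈ F, ∀ π ∈ F, σ ≠ π → HasEvenCycle (σ * π⁻¹)

/-- `F` is even-cycle-intersecting and no even-cycle-intersecting family has more elements. -/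
def Extremal {n : ℕ} (F : Finset (Perm (Fin n))) : Prop :=
  EvenCycleIntersecting F ∧
    ∀ F' : Finset (Perm (Fin n)), EvenCycleIntersecting F' → F'.card ≤ F.card

/-- `F = σ P π` for a Sylow 2-subgroup `P` of the symmetric group and `σ, π` in it. -/
def IsDoubleTranslate {n : ℕ} (F : Finset (Perm (Fin n))) : Prop :=
  ∃ (P : Sylow 2 (Perm (Fin n))) (σ π : Perm (Fin n)),
    (F : Set (Perm (Fin n))) = {x | ∃ g ∈ P, x = σ * g * π}

lemma two_dvd_lcm (s : Multiset ℕ) : 2 ∣ s.lcm ↔ ∃ c ∈ s, 2 ∣ c := by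
  induction s using Multiset.induction with
  | empty => simp
  | cons a s ih =>
    rw [Multiset.lcm_cons]
    constructor
    · intro h
      have h2 : 2 ∣ a * s.lcm := h.trans (Nat.lcm_dvd_mul a s.lcm)
      rcases (Nat.prime_two.dvd_mul).mp h2 with h3 | h3
      · exact ⟨a, Multiset.mem_cons_self a s, h3⟩
      · obtain ⟨c, hc, hc2⟩ := ih.mp h3
        exact ⟨c, Multiset.mem_cons_of_mem hc, hc2⟩
    · rintro ⟨c, hc, hc2⟩
      rcases Multiset.mem_cons.mp hc with rfl | h3
      · exact hc2.trans (dvd_lcm_left _ _)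
      · exact (ih.mpr ⟨c, h3, hc2⟩).trans (dvd_lcm_right _ _)

lemma hasEvenCycle_iff {n : ℕ} (τ : Perm (Fin n)) : HasEvenCycle τ ↔ Even (orderOf τ) := by
  rw [← Perm.lcm_cycleType, even_iff_two_dvd, two_dvd_lcm]
  simp only [HasEvenCycle, even_iff_two_dvd]

lemma even_of_sign {α : Type*} [Fintype α] [DecidableEq α] {τ : Perm α} (h : Perm.sign τ = -1) :
    Even (orderOf τ) := by
  by_contra hodd
  rw [Nat.not_even_iff_odd] at hodd
  have h1 : Perm.sign τ ^ orderOf τ = 1 := by
    rw [← map_pow, pow_orderOf_eq_one, map_one]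
  rw [h, hodd.neg_one_pow] at h1
  exact absurd h1 (by decide)

/-- Nontrivial elements of a 2-group have even order. -/
lemma even_of_mem {n : ℕ} (P : Sylow 2 (Perm (Fin n))) {g : Perm (Fin n)} (hg : g ∈ P)
    (h1 : g ≠ 1) : Even (orderOf g) := by
  obtain ⟨k, hk⟩ := (IsPGroup.iff_orderOf.mp P.isPGroup') ⟨g, hg⟩
  have h2 : orderOf g = 2 ^ k := by
    rw [← hk]
    exact Subgroup.orderOf_coe (⟨g, hg⟩ : (P : Subgroup (Perm (Fin n))))
  rw [h2]
  rcases k with _ | k
  · rw [pow_zero, orderOf_eq_one_iff] at h2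
    exact absurd h2 h1
  · exact ⟨2 ^ k, by ring⟩

lemma card_translate {n : ℕ} {F : Finset (Perm (Fin n))} (P₀ : Sylow 2 (Perm (Fin n)))
    (h : IsDoubleTranslate F) : F.card = Nat.card P₀ := by
  obtain ⟨P, σ, π, hF⟩ := h
  rw [P₀.card_eq_multiplicity, ← P.card_eq_multiplicity, ← Nat.card_eq_finsetCard]
  have h1 : {x | ∃ g ∈ P, x = σ * g * π} = Set.range (fun g : P => σ * (g : Perm (Fin n)) * π) := by
    ext x
    constructor
    · rintro ⟨g, hg, rfl⟩
      exact ⟨⟨g, hg⟩, rfl⟩
    · rintro ⟨g, rfl⟩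
      exact ⟨g, g.2, rfl⟩
  have h2 : Nat.card F = Nat.card (F : Set (Perm (Fin n))) := rfl
  rw [h2, hF, h1]
  apply Nat.card_range_of_injective
  intro a b hab
  have := mul_right_cancel hab
  exact Subtype.ext (mul_left_cancel this)

/-- A double-translate containing the identity is closed under multiplication. -/
lemma mul_mem_of_translate {n : ℕ} {F : Finset (Perm (Fin n))} (h : IsDoubleTranslate F)
    (h1 : 1 ∈ F) {x y : Perm (Fin n)} (hx : x ∈ F) (hy : y ∈ F) : x * y ∈ F := by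
  obtain ⟨P, σ, π, hF⟩ := h
  rw [← Finset.mem_coe, hF] at h1 hx hy ⊢
  obtain ⟨g0, hg0, e0⟩ := h1
  obtain ⟨g, hg, rfl⟩ := hx
  obtain ⟨k, hk, rfl⟩ := hy
  refine ⟨g * g0⁻¹ * k, P.mul_mem (P.mul_mem hg (P.inv_mem hg0)) hk, ?_⟩
  have e1 : π * σ = g0⁻¹ := by
    have : g0 * (π * σ) = 1 := by
      have h3 : σ * (g0 * (π * σ)) = σ * 1 := by
        rw [← mul_assoc, ← mul_assoc, ← e0]; simp
      exact mul_left_cancel h3
    exact eq_inv_of_mul_eq_one_right this
  rw [← e1]
  simp only [mul_assoc]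

lemma exists_family {n : ℕ} (hn : 5 ≤ n) : ∃ (P : Sylow 2 (Perm (Fin n)))
    (F : Finset (Perm (Fin n))), EvenCycleIntersecting F ∧ Nat.card P ≤ F.card ∧
      ¬ IsDoubleTranslate F := by
  classical
  obtain ⟨a, b, c, d, e, hab, hac, had, hae, hbc, hbd, hbe, hcd, hce, hde⟩ :
      ∃ a b c d e : Fin n, a ≠ b ∧ a ≠ c ∧ a ≠ d ∧ a ≠ e ∧ b ≠ c ∧ b ≠ d ∧ b ≠ e ∧ c ≠ d ∧
        c ≠ e ∧ d ≠ e :=
    ⟨⟨0, by omega⟩, ⟨1, by omega⟩, ⟨2, by omega⟩, ⟨3, by omega⟩, ⟨4, by omega⟩, by simp, by simp,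
      by simp, by simp, by simp, by simp, by simp, by simp, by simp, by simp⟩
  set x : Perm (Fin n) := swap a b * swap c d with hx
  set t : Perm (Fin n) := swap d e with ht
  have hcomm : swap a b * swap c d = swap c d * swap a b := by
    apply Perm.Disjoint.commute
    exact Perm.disjoint_swap_swap (by simp [hab, hac, had, hbc, hbd, hcd])
  have hx2 : x ^ 2 = 1 := by
    rw [pow_two]
    nth_rewrite 1 [hx]
    rw [hx, hcomm, mul_assoc, ← mul_assoc (swap a b) (swap c d) (swap a b), hcomm, mul_assoc,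
      swap_mul_self, mul_one, swap_mul_self]
  obtain ⟨P, hP⟩ : ∃ P : Sylow 2 (Perm (Fin n)), Subgroup.zpowers x ≤ P := by
    apply IsPGroup.exists_le_sylow
    intro g
    refine ⟨1, ?_⟩
    obtain ⟨g, hg⟩ := g
    obtain ⟨k, rfl⟩ := Subgroup.mem_zpowers_iff.mp hg
    apply Subtype.ext
    simp only [pow_one, Subgroup.coe_pow, Subgroup.coe_one]
    rw [← zpow_natCast, ← zpow_mul, mul_comm, zpow_mul]
    have : x ^ ((2 : ℕ) : ℤ) = 1 := by rw [zpow_natCast]; exact hx2
    rw [this, one_zpow]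
  have hxP : x ∈ P := hP (Subgroup.mem_zpowers x)
  have hsx : Perm.sign x = 1 := by
    rw [hx, Perm.sign_mul, Perm.sign_swap hab, Perm.sign_swap hcd]; rfl
  have hst : Perm.sign t = -1 := Perm.sign_swap hde
  let Q : Finset (Perm (Fin n)) := Finset.univ.filter (fun g => g ∈ P ∧ Perm.sign g = 1)
  have hQ : ∀ g, g ∈ Q ↔ g ∈ P ∧ Perm.sign g = 1 := by intro g; simp [Q]
  let F : Finset (Perm (Fin n)) := Q ∪ Q.image (fun g => t * g)
  have hsF : ∀ g ∈ Q.image (fun g => t * g), Perm.sign g = -1 := by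
    intro g hg
    obtain ⟨q, hq, rfl⟩ := Finset.mem_image.mp hg
    rw [Perm.sign_mul, hst, ((hQ q).mp hq).2]; rfl
  refine ⟨P, F, ?_, ?_, ?_⟩
  · have cross : ∀ g ∈ Q, ∀ h ∈ Q.image (fun g => t * g),
        Perm.sign g = 1 ∧ Perm.sign h = -1 := fun g hg h hh => ⟨((hQ g).mp hg).2, hsF h hh⟩
    intro σ hσ π hπ hne
    rw [hasEvenCycle_iff]
    rcases Finset.mem_union.mp hσ with h1 | h1 <;> rcases Finset.mem_union.mp hπ with h2 | h2
    · refine even_of_mem P (P.mul_mem ((hQ _).mp h1).1 (P.inv_mem ((hQ _).mp h2).1)) ?_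
      exact fun e => hne (mul_inv_eq_one.mp e)
    · apply even_of_sign
      rw [Perm.sign_mul, Perm.sign_inv, (cross _ h1 _ h2).1, (cross _ h1 _ h2).2]; rfl
    · apply even_of_sign
      rw [Perm.sign_mul, Perm.sign_inv, (cross _ h2 _ h1).1, (cross _ h2 _ h1).2]; rfl
    · obtain ⟨p, hp, rfl⟩ := Finset.mem_image.mp h1
      obtain ⟨q, hq, rfl⟩ := Finset.mem_image.mp h2
      have e1 : t * p * (t * q)⁻¹ = t * (p * q⁻¹) * t⁻¹ := by group
      have e2 : orderOf (t * (p * q⁻¹) * t⁻¹) = orderOf (p * q⁻¹) := by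
        have := orderOf_injective (MulAut.conj t).toMonoidHom (MulAut.conj t).injective (p * q⁻¹)
        simpa using this
      rw [e1, e2]
      refine even_of_mem P (P.mul_mem ((hQ _).mp hp).1 (P.inv_mem ((hQ _).mp hq).1)) ?_
      exact fun e => hne (by rw [mul_inv_eq_one.mp e])
  · have hdisj : Disjoint Q (Q.image (fun g => t * g)) := by
      rw [Finset.disjoint_left]
      intro g hg hg'
      have h1 := ((hQ g).mp hg).2
      rw [hsF g hg'] at h1
      exact absurd h1 (by decide)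
    have hFc : F.card = 2 * Q.card := by
      rw [Finset.card_union_of_disjoint hdisj, Finset.card_image_of_injective _
        (mul_right_injective t)]
      ring
    rw [hFc]
    -- `|P| ≤ 2 |Q|`
    let f : P →* ℤˣ := (Perm.sign).comp (P : Subgroup (Perm (Fin n))).subtype
    have h1 : Nat.card f.ker * f.ker.index = Nat.card P := Subgroup.card_mul_index _
    have h2 : f.ker.index ≤ 2 := by
      rw [Subgroup.index_ker]
      calc Nat.card f.range ≤ Nat.card ℤˣ := Nat.card_le_card_of_injective _ Subtype.val_injective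
        _ = 2 := by simp
    have h3 : Nat.card f.ker ≤ Q.card := by
      rw [← Nat.card_eq_finsetCard]
      refine Nat.card_le_card_of_injective (fun g : f.ker => (⟨((g : P) : Perm (Fin n)), ?_⟩ : Q)) ?_
      · rw [hQ]
        exact ⟨(g : P).2, g.2⟩
      · intro g h hgh
        simp only [Subtype.mk.injEq] at hgh
        exact Subtype.ext (Subtype.ext hgh)
    rw [← h1]
    calc Nat.card f.ker * f.ker.index ≤ Q.card * 2 := Nat.mul_le_mul h3 h2
      _ = 2 * Q.card := by ring
  · intro hdt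
    have h1 : (1 : Perm (Fin n)) ∈ F := by
      apply Finset.mem_union_left
      rw [hQ]
      exact ⟨P.one_mem, by simp⟩
    have h2 : t ∈ F := by
      apply Finset.mem_union_right
      rw [Finset.mem_image]
      exact ⟨1, by rw [hQ]; exact ⟨P.one_mem, by simp⟩, by simp⟩
    have h3 : x ∈ F := Finset.mem_union_left _ ((hQ x).mpr ⟨hxP, hsx⟩)
    have h4 := mul_mem_of_translate hdt h1 h3 h2
    rcases Finset.mem_union.mp h4 with h5 | h5
    · have h6 := ((hQ _).mp h5).2
      rw [Perm.sign_mul, hsx, hst] at h6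
      exact absurd h6 (by decide)
    · obtain ⟨q, hq, hq2⟩ := Finset.mem_image.mp h5
      have htt : t⁻¹ = t := swap_inv _ _
      have h6 : q = t * x * t⁻¹ := by
        have h61 : q = t⁻¹ * (x * t) := by rw [← hq2]; group
        rw [h61, ← mul_assoc, htt]
      have h7 : t * x * t⁻¹ = swap a b * swap c e := by
        have h8 : t * x * t⁻¹ = (t * swap a b * t⁻¹) * (t * swap c d * t⁻¹) := by rw [hx]; group
        rw [h8, ← swap_apply_apply, ← swap_apply_apply, ht, swap_apply_of_ne_of_ne had hae,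
          swap_apply_of_ne_of_ne hbd hbe, swap_apply_of_ne_of_ne hcd hce, swap_apply_left]
      have h9 : x * q ∈ P := P.mul_mem hxP ((hQ q).mp hq).1
      have h10 : x * q = swap c d * swap c e := by
        rw [h6, h7, hx, hcomm, mul_assoc, ← mul_assoc (swap a b) (swap a b), swap_mul_self, one_mul]
      rw [h10] at h9
      have h11 := (Perm.isThreeCycle_swap_mul_swap_same hcd hce hde)
      have h12 := even_of_mem P h9 (by
        intro h
        have := h11.orderOf
        rw [h, orderOf_one] at this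
        omega)
      rw [h11.orderOf] at h12
      exact absurd h12 (by decide)

/-- For every `n ≥ 5` there is an extremal even-cycle-intersecting family in `S_n` that is not a
double-translate of any Sylow 2-subgroup. -/
theorem result : ∀ n : ℕ, 5 ≤ n →
    ∃ F : Finset (Perm (Fin n)), Extremal F ∧ ¬ IsDoubleTranslate F := by
  classical
  intro n hn
  obtain ⟨P, F, hF, hc, hdt⟩ := exists_family hn
  obtain ⟨M, hM, hmax⟩ := Finset.exists_max_image
    (Finset.univ.filter (fun F : Finset (Perm (Fin n)) => EvenCycleIntersecting F)) Finset.card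
    ⟨F, by simpa using hF⟩
  simp only [Finset.mem_filter, Finset.mem_univ, true_and] at hM hmax
  by_cases h : IsDoubleTranslate M
  · refine ⟨F, ⟨hF, fun F' hF' => ?_⟩, hdt⟩
    exact (hmax F' hF').trans ((card_translate P h).le.trans hc)
  · exact ⟨M, ⟨hM, fun F' hF' => hmax F' hF'⟩, h⟩

end Pool.Agent.Results.MP_acd7ab_co.UniquenessFails
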